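import Mathlib
import Pool.Agent.H53.ST.Final
import Pool.Agent.ST53.TaskLin
import Pool.Agent.ST53.TaskLine
import Pool.Agent.ST53.TaskClosed
import Pool.Agent.ST53.TaskOpen
import Pool.Agent.ST53.TaskRaise
import Pool.Agent.ST53.TaskE
import Pool.Agent.ST53.TaskRado
import Pool.Agent.ST53.TaskTrans
import Pool.Agent.ST53.TaskTransConv
import Pool.Agent.ST53.TaskR2
import Pool.Agent.ST53.TaskSmall
import Pool.Agent.ST53.TaskNear
import Pool.Agent.ST53.TaskSeg
import Pool.Agent.ST53.TaskPerp
import Pool.Agent.ST53.TaskTight
import Pool.Agent.ST53.TaskFix
import Pool.Agent.ST53.TaskMove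
import Pool.Agent.ST53.TaskLP
import Pool.Agent.ST53.TaskMaxAtt
import Pool.Agent.H53.ST.MaxP
import Pool.Agent.ST53.TaskStep
import Pool.Agent.ST53.TaskConn
import Pool.Agent.ST53.TaskStab
import Pool.Agent.ST53.TaskGen

/-!
MP_835643_co, Q1 (answer: yes). Let `Σ_1, ..., Σ_k` be tropical hypersurfaces in `ℝ^n`, `k > n`, such
that the stable intersection of any `n` of them is not empty. Then every connected component of the
intersection of all of them contains a point of the stable intersection of some `n` of them.

The definitions are in `Pool.Agent.H53.ST.Defs`:
* `TropPoly n`: a nonempty finite set of exponents in `ℤ^n` with real coefficients; `TropPoly.term`: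
  the value of a term; `TropPoly.hyp`: the points where the maximum is attained at least twice;
* `Stable f J`: the points `p` such that for all `v` outside the zeros of some nonzero polynomial `p`
  is a limit, as `ε → 0+`, of points of `⋂ j ∈ J, ((f j).hyp + ε v_j)`.

Proof (`Pool.Agent.H53.ST.General`). At a point `q` of the component choose a maximal set `J` of
indices with linearly independent differences of active exponents, `|J| = m`, and suppose `m < n` is
the maximum over the component. The set of the points which can be reached from `q` by going to more
or less generic points with a transversal for `J` is a finite union of polyhedra in the component. A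
linear function which is bounded above on this set is constant on it (it attains its maximum, and
from a point where it is attained one could move further up: existence of solutions of tropical
systems with a transversal). The linear functions which are constant on the set form the span `L` of
the differences of the smallest tight set `S ⊆ J` (Rado's theorem). For `j ∈ S` and for an index
`j = i ∉ J` the active exponents `a` are the same in all points of the set, so `(b - a) x` is bounded
above for all exponents `b` of `Σ_j`, hence `b - a ∈ L`: the `|S| + 1` hypersurfaces with indices in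
`S ∪ {i}` have all their differences in a space of dimension `|S|`, and no stable intersection which
involves them is nonempty.
-/

set_option autoImplicit false

namespace Pool.Agent.Results.MP_835643_co.ComponentsContainStable

open Pool.Agent.H53.ST

theorem hLin : TaskLin := Pool.Agent.ST53.TaskLin.main
theorem hLine : TaskLine := Pool.Agent.ST53.TaskLine.main
theorem hClosed : TaskClosed := Pool.Agent.ST53.TaskClosed.main hLin
theorem hOpen : TaskOpen := Pool.Agent.ST53.TaskOpen.main hLin
theorem hRaise : TaskRaise := Pool.Agent.ST53.TaskRaise.main hClosed hOpen
theorem hE : TaskE := Pool.Agent.ST53.TaskE.main hLine hRaise hClosed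
theorem hRado : TaskRado := Pool.Agent.ST53.TaskRado.main
theorem hTrans : TaskTrans := Pool.Agent.ST53.TaskTrans.main hRado
theorem hTransConv : TaskTransConv := Pool.Agent.ST53.TaskTransConv.main
theorem hR2 : TaskR2 := Pool.Agent.ST53.TaskR2.main hRado hTrans hTransConv
theorem hSmall : TaskSmall := Pool.Agent.ST53.TaskSmall.main
theorem hNear : TaskNear := Pool.Agent.ST53.TaskNear.main
theorem hSeg : TaskSeg := Pool.Agent.ST53.TaskSeg.main
theorem hPerp : TaskPerp := Pool.Agent.ST53.TaskPerp.main
theorem hTight : TaskTight := Pool.Agent.ST53.TaskTight.main
theorem hFix : TaskFix := Pool.Agent.ST53.TaskFix.main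
theorem hMove : TaskMove := Pool.Agent.ST53.TaskMove.main
theorem hLP : TaskLP := Pool.Agent.ST53.TaskLP.main
theorem hMaxAtt : TaskMaxAtt := Pool.Agent.ST53.TaskMaxAtt.main
theorem hMaxP : TaskMaxP := Pool.Agent.H53.ST.MaxPAlt.main
theorem hStep : TaskStep := Pool.Agent.ST53.TaskStep.main
theorem hConn : TaskConn := Pool.Agent.ST53.TaskConn.main
theorem hStab : TaskStab := Pool.Agent.ST53.TaskStab.main
theorem hGen : TaskGen := Pool.Agent.ST53.TaskGen.main

theorem hGeneral : General := fun n ι _ _ A c hA hn hInd p hp =>
  general hE hSeg hPerp hFix hConn hNear hMove hR2 hSmall hTransConv hTight hStep hLP hMaxAtt hMaxP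
    n ι A c hA hn hInd p hp

/-- Every connected component of an overdetermined intersection of tropical hypersurfaces contains a
stable intersection point of some `n` of them, if all `n`-fold stable intersections are nonempty. -/
theorem result (n k : ℕ) (hk : n < k) (f : Fin k → TropPoly n)
    (h : ∀ J : Finset (Fin k), J.card = n → (Stable f J).Nonempty)
    (p : Fin n → ℝ) (hp : p ∈ ⋂ i, (f i).hyp) :
    ∃ J : Finset (Fin k), J.card = n ∧
      (connectedComponentIn (⋂ i, (f i).hyp) p ∩ Stable f J).Nonempty := by
  obtain ⟨q, hq, J, hJ, hqs⟩ := final hGeneral hE hNear hStab hGen hk f h p hp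
  exact ⟨J, hJ, q, hq, hqs⟩

end Pool.Agent.Results.MP_835643_co.ComponentsContainStable
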